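import Pool.Agent.helper78.FS.Spec

set_option autoImplicit false

namespace Pool.Agent.helper78.FS

open Finset Real
open Classical

noncomputable section

/-- indicator of equality. -/
def CNA_e {V : Type} (p q : V) : ℤ := if p = q then 1 else 0

/-- antisymmetric function of the pair `x, y`. -/
def CNA_q {V : Type} (x y p s : V) : ℤ := CNA_e p x * CNA_e s y - CNA_e p y * CNA_e s x

theorem CNA_ind {V : Type} [DecidableEq V] (x y w a b c : V) :
    ind x y w a b c = CNA_q x y a b * CNA_e c w + CNA_q x y b c * CNA_e a w + CNA_q x y c a * CNA_e b w := by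
  have h : ∀ (p q r p' q' r' : V), (if p = p' ∧ q = q' ∧ r = r' then (1 : ℤ) else 0) = CNA_e p p' * CNA_e q q' * CNA_e r r' := by
    intro p q r p' q' r'
    unfold CNA_e
    by_cases h1 : p = p' <;> by_cases h2 : q = q' <;> by_cases h3 : r = r' <;> simp [h1, h2, h3]
  unfold ind
  rw [h, h, h, h, h, h]
  unfold CNA_q
  ring

theorem CNA_sym {V : Type} [DecidableEq V] (x y w a b c : V) :
    ind x w y a b c = - ind x y w a b c ∧ ind y w x a b c = ind x y w a b c ∧ ind y x w a b c = - ind x y w a b c := by
  rw [CNA_ind, CNA_ind, CNA_ind, CNA_ind]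
  unfold CNA_q
  refine ⟨?_, ?_, ?_⟩ <;> ring

theorem CNA : CNA_stmt := by
  intro V ι _ _ G a b c x u hG hGi hClo hTri hu hx huu
  have h2 : ∀ x y w, cnt a b c x w y = - cnt a b c x y w := by
    intro x y w
    unfold cnt
    rw [← Finset.sum_neg_distrib]
    exact Finset.sum_congr rfl fun f _ => (CNA_sym x y w _ _ _).1
  have h3 : ∀ x y w, cnt a b c y w x = cnt a b c x y w := by
    intro x y w
    unfold cnt
    exact Finset.sum_congr rfl fun f _ => (CNA_sym x y w _ _ _).2.1
  have h4 : ∀ x y w, cnt a b c y x w = - cnt a b c x y w := by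
    intro x y w
    unfold cnt
    rw [← Finset.sum_neg_distrib]
    exact Finset.sum_congr rfl fun f _ => (CNA_sym x y w _ _ _).2.2
  refine ⟨?_, h2, h3, h4⟩
  intro i
  have hxy : x ≠ u i := by
    intro h
    have h1 : G x (u i) := (hx (u i)).2 ⟨i, rfl⟩
    rw [← h] at h1
    exact hGi x h1
  -- the closed identity
  have hcl := hClo (CNA_q x (u i)) (by
    intro z
    unfold CNA_q
    ring) (by
    intro z z'
    unfold CNA_q
    ring)
  have hdist : u (i + 1) ≠ u (i - 1) := by
    intro h
    have h1 := hu h
    have h5 : (2 : ZMod 6) = 0 := by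
      have : (2 : ZMod 6) = (i + 1) - (i - 1) := by ring
      rw [this, h1]
      ring
    exact absurd h5 (by decide)
  -- the third corner
  have hthird : ∀ A B C : V, G A B → G B C → G C A → CNA_q x (u i) A B * (CNA_e C (u (i + 1)) + CNA_e C (u (i - 1))) = CNA_q x (u i) A B := by
    intro A B C hAB hBC hCA
    have hC : G x C → G (u i) C → CNA_e C (u (i + 1)) + CNA_e C (u (i - 1)) = 1 := by
      intro hxC huC
      obtain ⟨j, rfl⟩ := (hx C).1 hxC
      rcases (huu i j).1 huC with h | h
      · subst h
        unfold CNA_e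
        rw [if_pos rfl, if_neg hdist]
        rfl
      · have h5 : j = i - 1 := by
          rw [h]
          ring
        subst h5
        unfold CNA_e
        rw [if_pos rfl, if_neg (Ne.symm hdist)]
        rfl
    by_cases h1 : A = x ∧ B = u i
    · obtain ⟨rfl, rfl⟩ := h1
      rw [hC (hG _ _ hCA) hBC, mul_one]
    · by_cases h2 : A = u i ∧ B = x
      · obtain ⟨rfl, rfl⟩ := h2
        rw [hC hBC (hG _ _ hCA), mul_one]
      · have h5 : CNA_q x (u i) A B = 0 := by
          have h6 : ∀ p q p' q' : V, ¬ (p = p' ∧ q = q') → CNA_e p p' * CNA_e q q' = 0 := by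
            intro p q p' q' h
            unfold CNA_e
            by_cases k1 : p = p'
            · have k2 : ¬ q = q' := fun k2 => h ⟨k1, k2⟩
              rw [if_neg k2, mul_zero]
            · rw [if_neg k1, zero_mul]
          unfold CNA_q
          rw [h6 _ _ _ _ h1, h6 _ _ _ _ h2, sub_zero]
        rw [h5, zero_mul]
  have hsum : ∀ f, CNA_q x (u i) (a f) (b f) + CNA_q x (u i) (b f) (c f) + CNA_q x (u i) (c f) (a f) =
      ind x (u i) (u (i + 1)) (a f) (b f) (c f) + ind x (u i) (u (i - 1)) (a f) (b f) (c f) := by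
    intro f
    rw [CNA_ind, CNA_ind]
    obtain ⟨t1, t2, t3⟩ := hTri f
    by_cases k1 : a f = b f
    · rw [k1]
      unfold CNA_q
      ring
    · by_cases k2 : b f = c f
      · rw [k2]
        unfold CNA_q
        ring
      · by_cases k3 : c f = a f
        · rw [k3]
          unfold CNA_q
          ring
        · have g1 := t1.resolve_left k1
          have g2 := t2.resolve_left k2
          have g3 := t3.resolve_left k3
          have e1 := hthird _ _ _ g1 g2 g3
          have e2 := hthird _ _ _ g2 g3 g1
          have e3 := hthird _ _ _ g3 g1 g2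
          linear_combination -e1 - e2 - e3
  have hfin : cnt a b c x (u i) (u (i + 1)) + cnt a b c x (u i) (u (i - 1)) = 0 := by
    unfold cnt
    rw [← Finset.sum_add_distrib, ← hcl]
    exact Finset.sum_congr rfl fun f _ => (hsum f).symm
  have h5 := h2 x (u i) (u (i - 1))
  rw [h5]
  linarith

end

end Pool.Agent.helper78.FS
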