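import Pool.Agent.helper78.FS.Spec

set_option autoImplicit false

namespace Pool.Agent.helper78.FS

open Finset Real

theorem PF1_k1' : ∀ i m : ZMod 6, m = i ∨ m = i + 1 ∨ m = i - 1 ∨ m = i + 4 ∨ m = (i - 1) + 4 ∨ m = i + 2 := by decide
theorem PF1_k2' : ∀ i m : ZMod 6, m = i ∨ m = i + 1 ∨ m = i - 1 ∨ m = i + 3 ∨ m = (i - 1) + 3 ∨ m = i + 4 := by decide
theorem PF1_k1 (i m : ZMod 6) (h1 : m ≠ i) (h2 : m ≠ i + 1) (h3 : m ≠ i - 1) (h4 : m ≠ i + 4) (h5 : m ≠ (i - 1) + 4) : m = i + 2 := by
  have := PF1_k1' i m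
  tauto
theorem PF1_k2 (i m : ZMod 6) (h1 : m ≠ i) (h2 : m ≠ i + 1) (h3 : m ≠ i - 1) (h4 : m ≠ i + 3) (h5 : m ≠ (i - 1) + 3) : m = i + 4 := by
  have := PF1_k2' i m
  tauto

open Classical

noncomputable section

/-- a hexagon normalised at two consecutive vertices. -/
theorem PF1_rot {V : Type} {G : V → V → Prop} {p a b : V} (h : HexN G p) (ha : G p a) (hb : G p b) (hab : G a b) :
    ∃ u : ZMod 6 → V, Function.Injective u ∧ (∀ w, G p w ↔ ∃ i, w = u i) ∧ (∀ i j, G (u i) (u j) ↔ (j = i + 1 ∨ i = j + 1)) ∧ u 0 = a ∧ u 1 = b := by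
  obtain ⟨u, hu, hp, hc⟩ := h
  obtain ⟨i, rfl⟩ := (hp a).1 ha
  obtain ⟨j, rfl⟩ := (hp b).1 hb
  rcases (hc i j).1 hab with h1 | h1
  · subst h1
    refine ⟨fun m => u (i + m), ?_, ?_, ?_, ?_, rfl⟩
    · intro m n hmn
      exact add_left_cancel (hu hmn)
    · intro w
      rw [hp]
      constructor
      · rintro ⟨m, rfl⟩
        exact ⟨m - i, by simp⟩
      · rintro ⟨m, rfl⟩
        exact ⟨i + m, rfl⟩
    · intro m n
      rw [hc]
      constructor
      · rintro (h | h)
        · left
          have : i + n = i + (m + 1) := by rw [h]; ring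
          exact add_left_cancel this
        · right
          have : i + m = i + (n + 1) := by rw [h]; ring
          exact add_left_cancel this
      · rintro (h | h)
        · left
          rw [h]
          ring
        · right
          rw [h]
          ring
    · simp
  · refine ⟨fun m => u (i - m), ?_, ?_, ?_, ?_, ?_⟩
    · intro m n hmn
      exact sub_right_injective (hu hmn)
    · intro w
      rw [hp]
      constructor
      · rintro ⟨m, rfl⟩
        exact ⟨i - m, by simp⟩
      · rintro ⟨m, rfl⟩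
        exact ⟨i - m, rfl⟩
    · intro m n
      rw [hc]
      constructor
      · rintro (h | h)
        · right
          linear_combination h
        · left
          linear_combination h
      · rintro (h | h)
        · right
          rw [h]
          ring
        · left
          rw [h]
          ring
    · simp
    · simp only
      rw [h1]
      simp

theorem PF1_all (X : ZMod 6 → ZMod 6) (h1 : ∀ i, X i = i + 3 ∨ X i = i + 4) (h2 : ∀ i, X (i + 1) ≠ X i) :
    (∀ i, X i = i + 4) ∨ ∀ i, X i = i + 3 := by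
  by_cases h : ∃ j, X j = j + 4
  · left
    obtain ⟨j, hj⟩ := h
    have h3 : ∀ n : ℕ, X (j + n) = j + n + 4 := by
      intro n
      induction n with
      | zero => simpa using hj
      | succ n ih =>
        have h4 : j + ((n + 1 : ℕ) : ZMod 6) = (j + n) + 1 := by push_cast; ring
        rw [h4]
        rcases h1 ((j + n) + 1) with h5 | h5
        · exfalso
          apply h2 (j + n)
          rw [h5, ih]
          ring
        · exact h5
    intro i
    have h4 := h3 (i - j).val
    rw [ZMod.natCast_zmod_val] at h4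
    have h5 : j + (i - j) = i := by ring
    rwa [h5] at h4
  · right
    push Not at h
    intro i
    rcases h1 i with h3 | h3
    · exact h3
    · exact absurd h3 (h i)

theorem PF1 : PF1_stmt := by
  intro V G c v hG hGi hD
  obtain ⟨⟨hHex, hcinj, hcne⟩, hW⟩ := hD
  obtain ⟨u, hu, hv, huu⟩ := hHex
  have hvu : ∀ i, G v (u i) := fun i => (hv _).2 ⟨i, rfl⟩
  have huv : ∀ i, G (u i) v := fun i => hG _ _ (hvu i)
  have hu1 : ∀ i, G (u i) (u (i + 1)) := fun i => (huu _ _).2 (Or.inl rfl)
  have hum : ∀ i, G (u i) (u (i - 1)) := fun i => (huu _ _).2 (Or.inr (by ring))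
  -- the hexagons of the neighbours
  have hhex : ∀ i, ∃ h : ZMod 6 → V, Function.Injective h ∧ (∀ w, G (u i) w ↔ ∃ j, w = h j) ∧ (∀ j k, G (h j) (h k) ↔ (k = j + 1 ∨ j = k + 1)) ∧
      h 0 = v ∧ h 1 = u (i + 1) := fun i => PF1_rot (hW (u i) (hvu i)).1 (huv i) (hu1 i) (hvu (i + 1))
  choose h hinj hnb hadj h0 h1 using hhex
  have hhu : ∀ i j, G (u i) (h i j) := fun i j => (hnb i _).2 ⟨j, rfl⟩
  have h5 : ∀ i, h i 5 = u (i - 1) := by
    intro i
    obtain ⟨j, hj⟩ := (hnb i (u (i - 1))).1 (hum i)
    have h6 : G (h i 0) (h i j) := by rw [h0, ← hj]; exact hvu _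
    rcases (hadj i 0 j).1 h6 with h7 | h7
    · exfalso
      rw [h7, zero_add, h1] at hj
      have h8 := hu hj
      have h9 : (2 : ZMod 6) = 0 := by linear_combination -h8
      exact absurd h9 (by decide)
    · have h8 : j = 5 := by
        have : j = -1 := by linear_combination -h7
        rw [this]
        decide
      rw [hj, h8]
  have h4 : ∀ i, h (i + 1) 4 = h i 2 := by
    intro i
    have k1 : G (u (i + 1)) (h i 2) := by
      rw [← h1]
      exact (hadj i 1 2).2 (Or.inl (by decide))
    obtain ⟨j, hj⟩ := (hnb (i + 1) (h i 2)).1 k1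
    have k2 : G (h (i + 1) 5) (h (i + 1) j) := by
      rw [h5, ← hj, add_sub_cancel_right]
      exact hhu i 2
    rcases (hadj (i + 1) 5 j).1 k2 with k3 | k3
    · exfalso
      have k4 : j = 0 := by rw [k3]; decide
      rw [k4, h0, ← h0 i] at hj
      exact absurd (hinj i hj) (by decide)
    · have k4 : j = 4 := by
        have : j = 5 - 1 := by rw [k3]; ring
        rw [this]
        decide
      rw [hj, k4]
  -- colours
  let g : Option (ZMod 6) → V := fun o => o.elim v u
  have hgn : g none = v := rfl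
  have hgs : ∀ i, g (some i) = u i := fun i => rfl
  have hcg : Function.Bijective (fun o => c (g o)) := by
    rw [Fintype.bijective_iff_injective_and_card]
    constructor
    · intro a b hab
      simp only at hab
      rcases a with _ | i <;> rcases b with _ | j
      · rfl
      · exfalso
        rw [hgn, hgs] at hab
        exact hcne _ (hvu j) hab.symm
      · exfalso
        rw [hgn, hgs] at hab
        exact hcne _ (hvu i) hab
      · rw [hgs, hgs] at hab
        rw [hu (hcinj _ _ (hvu i) (hvu j) hab)]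
    · simp [ZMod.card]
  let e : Option (ZMod 6) ≃ Fin 7 := Equiv.ofBijective _ hcg
  have hev : e.symm (c v) = none := by
    rw [Equiv.symm_apply_eq]
    rfl
  have heu : ∀ i, e.symm (c (u i)) = some i := by
    intro i
    rw [Equiv.symm_apply_eq]
    rfl
  -- colours of the neighbours of `u i`
  have hcol : ∀ i j k, c (h i j) = c (h i k) → j = k := by
    intro i j k hc
    exact hinj i ((hW (u i) (hvu i)).2.1 _ _ (hhu i j) (hhu i k) hc)
  have hcolu : ∀ i j, c (h i j) ≠ c (u i) := fun i j => (hW (u i) (hvu i)).2.2 _ (hhu i j)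
  have hsome : ∀ i j, j ≠ 0 → ∃ m : ZMod 6, c (h i j) = c (u m) ∧ m ≠ i := by
    intro i j hj
    obtain ⟨o, ho⟩ := hcg.2 (c (h i j))
    simp only at ho
    rcases o with _ | m
    · exfalso
      rw [hgn, ← h0 i] at ho
      exact hj (hcol i _ _ ho).symm
    · rw [hgs] at ho
      refine ⟨m, ho.symm, ?_⟩
      rintro rfl
      exact hcolu _ _ ho.symm
  have hX := fun i => hsome i 2 (by decide)
  choose X hXc hXi using hX
  have hY := fun i => hsome i 3 (by decide)
  choose Y hYc hYi using hY
  have hX1 : ∀ i, X i ≠ i + 1 := by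
    intro i hx
    have := hXc i
    rw [hx, ← h1 i] at this
    exact absurd (hcol i _ _ this) (by decide)
  have hXm : ∀ i, X i ≠ i - 1 := by
    intro i hx
    have := hXc i
    rw [hx, ← h5 i] at this
    exact absurd (hcol i _ _ this) (by decide)
  have hX2 : ∀ i, X i ≠ i + 2 := by
    intro i hx
    have h6 := hXc i
    have h7 : i + 2 = (i + 1) + 1 := by ring
    rw [hx, ← h4 i, h7, ← h1 (i + 1)] at h6
    exact absurd (hcol (i + 1) _ _ h6) (by decide)
  have hXX : ∀ i, X (i + 1) ≠ X i := by
    intro i hx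
    have h6 := hXc (i + 1)
    rw [hx, ← hXc i, ← h4 i] at h6
    exact absurd (hcol (i + 1) _ _ h6) (by decide)
  have hXc' : ∀ i, X i = i + 3 ∨ X i = i + 4 := by
    have key : ∀ i m : ZMod 6, m ≠ i → m ≠ i + 1 → m ≠ i - 1 → m ≠ i + 2 → (m = i + 3 ∨ m = i + 4) := by decide
    intro i
    exact key i (X i) (hXi i) (hX1 i) (hXm i) (hX2 i)
  have hY1 : ∀ i, Y i ≠ i + 1 := by
    intro i hx
    have := hYc i
    rw [hx, ← h1 i] at this
    exact absurd (hcol i _ _ this) (by decide)
  have hYm : ∀ i, Y i ≠ i - 1 := by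
    intro i hx
    have := hYc i
    rw [hx, ← h5 i] at this
    exact absurd (hcol i _ _ this) (by decide)
  have hYX : ∀ i, Y i ≠ X i := by
    intro i hx
    have := hYc i
    rw [hx, ← hXc i] at this
    exact absurd (hcol i _ _ this) (by decide)
  have hYX' : ∀ i, Y (i + 1) ≠ X i := by
    intro i hx
    have h6 := hYc (i + 1)
    rw [hx, ← hXc i, ← h4 i] at h6
    exact absurd (hcol (i + 1) _ _ h6) (by decide)
  -- the general conclusion
  have main : ∀ τ : Option (ZMod 6) → ZMod 7, Function.Bijective τ → τ none = 0 →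
      (∀ i : ZMod 6, τ (some (i + 1)) = 3 * τ (some i) ∨ τ (some i) = 3 * τ (some (i + 1))) →
      (∀ i : ZMod 6, ∀ j : ZMod 6, ∀ d : ZMod 6 → ZMod 7, d 0 = 0 → d 1 = τ (some (i + 1)) → d 2 = τ (some (X i)) → d 3 = τ (some (Y i)) →
        d 4 = τ (some (X (i - 1))) → d 5 = τ (some (i - 1)) → (d (j + 1) - τ (some i) = 3 * (d j - τ (some i)) ∨ d j - τ (some i) = 3 * (d (j + 1) - τ (some i)))) →
      ∃ σ : Fin 7 → ZMod 7, Function.Bijective σ ∧ Perf G c σ v ∧ ∀ w, G v w → Perf G c σ w := by
    intro τ hτ hτ0 hτ1 hτ2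
    have hσv : (fun k => τ (e.symm k)) (c v) = 0 := by
      simp only
      rw [hev, hτ0]
    have hσu : ∀ i, (fun k => τ (e.symm k)) (c (u i)) = τ (some i) := by
      intro i
      simp only
      rw [heu]
    refine ⟨fun k => τ (e.symm k), hτ.comp e.symm.bijective, ?_, ?_⟩
    · intro a b ha hb hab
      obtain ⟨i, rfl⟩ := (hv a).1 ha
      obtain ⟨j, rfl⟩ := (hv b).1 hb
      rw [hσv, hσu, hσu, sub_zero, sub_zero]
      rcases (huu i j).1 hab with k1 | k1
      · subst k1
        exact hτ1 i
      · subst k1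
        exact (hτ1 j).symm
    · intro w hw
      obtain ⟨i, rfl⟩ := (hv w).1 hw
      intro a b ha hb hab
      obtain ⟨j, rfl⟩ := (hnb i a).1 ha
      obtain ⟨k, rfl⟩ := (hnb i b).1 hb
      have hd : ∀ j : ZMod 6, _ := fun j => hτ2 i j (fun m => (fun k => τ (e.symm k)) (c (h i m))) (by
        simp only
        rw [h0, hev, hτ0]) (by
        simp only
        rw [h1, heu]) (by
        simp only
        rw [hXc, heu]) (by
        simp only
        rw [hYc, heu]) (by
        simp only
        have k1 := h4 (i - 1)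
        rw [sub_add_cancel] at k1
        rw [k1, hXc, heu]) (by
        simp only
        rw [h5, heu])
      rw [hσu]
      rcases (hadj i j k).1 hab with k1 | k1
      · subst k1
        exact hd j
      · subst k1
        exact (hd k).symm
  rcases PF1_all X hXc' hXX with hA | hB
  · -- case `i + 4`
    have hYv : ∀ i, Y i = i + 2 := by
      intro i
      refine PF1_k1 i (Y i) (hYi i) (hY1 i) (hYm i) ?_ ?_
      · rw [← hA i]
        exact hYX i
      · have k1 := hYX' (i - 1)
        rw [sub_add_cancel, hA] at k1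
        exact k1
    refine main (fun o => o.elim 0 fun i => (3 : ZMod 7) ^ i.val) (by decide) rfl ?_ ?_
    · decide
    · intro i j d d0 d1 d2 d3 d4 d5
      rw [hA] at d2 d4
      rw [hYv] at d3
      have key : ∀ i : ZMod 6, (3 : ZMod 7) ^ (i + 1).val = 3 * 3 ^ i.val ∧ (3 : ZMod 7) ^ (i + 4).val = 4 * 3 ^ i.val ∧ (3 : ZMod 7) ^ (i + 2).val = 2 * 3 ^ i.val ∧
          (3 : ZMod 7) ^ (i - 1 + 4).val = 6 * 3 ^ i.val ∧ (3 : ZMod 7) ^ (i - 1).val = 5 * 3 ^ i.val := by decide
      obtain ⟨k1, k2, k3, k4, k5⟩ := key i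
      simp only [Option.elim] at d1 d2 d3 d4 d5 ⊢
      rw [k1] at d1
      rw [k2] at d2
      rw [k3] at d3
      rw [k4] at d4
      rw [k5] at d5
      generalize (3 : ZMod 7) ^ i.val = t at d1 d2 d3 d4 d5 ⊢
      have hj : j = 0 ∨ j = 1 ∨ j = 2 ∨ j = 3 ∨ j = 4 ∨ j = 5 := by
        revert j
        decide
      rcases hj with rfl | rfl | rfl | rfl | rfl | rfl
      · rw [show (0 + 1 : ZMod 6) = 1 by decide, d0, d1]
        clear d0 d1 d2 d3 d4 d5
        revert t
        decide
      · rw [show (1 + 1 : ZMod 6) = 2 by decide, d1, d2]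
        clear d0 d1 d2 d3 d4 d5
        revert t
        decide
      · rw [show (2 + 1 : ZMod 6) = 3 by decide, d2, d3]
        clear d0 d1 d2 d3 d4 d5
        revert t
        decide
      · rw [show (3 + 1 : ZMod 6) = 4 by decide, d3, d4]
        clear d0 d1 d2 d3 d4 d5
        revert t
        decide
      · rw [show (4 + 1 : ZMod 6) = 5 by decide, d4, d5]
        clear d0 d1 d2 d3 d4 d5
        revert t
        decide
      · rw [show (5 + 1 : ZMod 6) = 0 by decide, d5, d0]
        clear d0 d1 d2 d3 d4 d5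
        revert t
        decide
  · -- case `i + 3`
    have hYv : ∀ i, Y i = i + 4 := by
      intro i
      refine PF1_k2 i (Y i) (hYi i) (hY1 i) (hYm i) ?_ ?_
      · rw [← hB i]
        exact hYX i
      · have k1 := hYX' (i - 1)
        rw [sub_add_cancel, hB] at k1
        exact k1
    refine main (fun o => o.elim 0 fun i => (5 : ZMod 7) ^ i.val) (by decide) rfl ?_ ?_
    · decide
    · intro i j d d0 d1 d2 d3 d4 d5
      rw [hB] at d2 d4
      rw [hYv] at d3
      have key : ∀ i : ZMod 6, (5 : ZMod 7) ^ (i + 1).val = 5 * 5 ^ i.val ∧ (5 : ZMod 7) ^ (i + 3).val = 6 * 5 ^ i.val ∧ (5 : ZMod 7) ^ (i + 4).val = 2 * 5 ^ i.val ∧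
          (5 : ZMod 7) ^ (i - 1 + 3).val = 4 * 5 ^ i.val ∧ (5 : ZMod 7) ^ (i - 1).val = 3 * 5 ^ i.val := by decide
      obtain ⟨k1, k2, k3, k4, k5⟩ := key i
      simp only [Option.elim] at d1 d2 d3 d4 d5 ⊢
      rw [k1] at d1
      rw [k2] at d2
      rw [k3] at d3
      rw [k4] at d4
      rw [k5] at d5
      generalize (5 : ZMod 7) ^ i.val = t at d1 d2 d3 d4 d5 ⊢
      have hj : j = 0 ∨ j = 1 ∨ j = 2 ∨ j = 3 ∨ j = 4 ∨ j = 5 := by
        revert j
        decide
      rcases hj with rfl | rfl | rfl | rfl | rfl | rfl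
      · rw [show (0 + 1 : ZMod 6) = 1 by decide, d0, d1]
        clear d0 d1 d2 d3 d4 d5
        revert t
        decide
      · rw [show (1 + 1 : ZMod 6) = 2 by decide, d1, d2]
        clear d0 d1 d2 d3 d4 d5
        revert t
        decide
      · rw [show (2 + 1 : ZMod 6) = 3 by decide, d2, d3]
        clear d0 d1 d2 d3 d4 d5
        revert t
        decide
      · rw [show (3 + 1 : ZMod 6) = 4 by decide, d3, d4]
        clear d0 d1 d2 d3 d4 d5
        revert t
        decide
      · rw [show (4 + 1 : ZMod 6) = 5 by decide, d4, d5]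
        clear d0 d1 d2 d3 d4 d5
        revert t
        decide
      · rw [show (5 + 1 : ZMod 6) = 0 by decide, d5, d0]
        clear d0 d1 d2 d3 d4 d5
        revert t
        decide

end

end Pool.Agent.helper78.FS
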